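import Pool.Agent.H22.LPP.TargetsB

/-!
# The leftmost geodesic is a geodesic; order of leftmost geodesics
-/

open MeasureTheory ProbabilityTheory
open Pool.Agent.H99.NS Pool.Agent.H22.LPP

namespace Pool.Agent.H73.LPP.LAM

/-- The minimum of two paths of the same parity is a path. -/
theorem path_min {s t : ℤ} {γ γ' : ℤ → ℤ} (h : IsPath s t γ) (h' : IsPath s t γ')
    (hev : Even (γ s - γ' s)) : IsPath s t (fun r => min (γ r) (γ' r)) := by
  intro r hr hrt
  have e1 := (path_lip h le_rfl hr hrt.le).2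
  have e2 := (path_lip h' le_rfl hr hrt.le).2
  obtain ⟨k1, hk1⟩ := e1
  obtain ⟨k2, hk2⟩ := e2
  obtain ⟨k3, hk3⟩ := hev
  simp only
  rcases h r hr hrt with a | a <;> rcases h' r hr hrt with b | b <;> omega

/-- The maximum of two paths of the same parity is a path. -/
theorem path_max {s t : ℤ} {γ γ' : ℤ → ℤ} (h : IsPath s t γ) (h' : IsPath s t γ')
    (hev : Even (γ s - γ' s)) : IsPath s t (fun r => max (γ r) (γ' r)) := by
  intro r hr hrt
  have e1 := (path_lip h le_rfl hr hrt.le).2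
  have e2 := (path_lip h' le_rfl hr hrt.le).2
  obtain ⟨k1, hk1⟩ := e1
  obtain ⟨k2, hk2⟩ := e2
  obtain ⟨k3, hk3⟩ := hev
  simp only
  rcases h r hr hrt with a | a <;> rcases h' r hr hrt with b | b <;> omega

/-- The weights of the minimum and the maximum add up. -/
theorem wt_min_max (ω : Env) (s t : ℤ) (γ γ' : ℤ → ℤ) :
    wt ω s t (fun r => min (γ r) (γ' r)) + wt ω s t (fun r => max (γ r) (γ' r)) =
      wt ω s t γ + wt ω s t γ' := by
  unfold wt
  rw [← Finset.sum_add_distrib, ← Finset.sum_add_distrib]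
  refine Finset.sum_congr rfl fun r _ => ?_
  simp only
  rcases le_total (γ r) (γ' r) with h | h
  · rw [min_eq_left h, max_eq_right h]
  · rw [min_eq_right h, max_eq_left h, add_comm]

/-- Ordered pairs of end points: the minimum and the maximum of geodesics are geodesics. -/
theorem geod_min_max {ω : Env} {s t x x' y y' : ℤ} {γ γ' : ℤ → ℤ} (hst : s ≤ t)
    (h : Geod ω (s, x) (t, y) γ) (h' : Geod ω (s, x') (t, y') γ') (hev : Even (x - x'))
    (hx : x ≤ x') (hy : y ≤ y') :
    Geod ω (s, x) (t, y) (fun r => min (γ r) (γ' r)) ∧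
      Geod ω (s, x') (t, y') (fun r => max (γ r) (γ' r)) := by
  obtain ⟨⟨p1, p2, p3⟩, p4⟩ := h
  obtain ⟨⟨q1, q2, q3⟩, q4⟩ := h'
  simp only at p1 p2 p3 p4 q1 q2 q3 q4
  have hev2 : Even (γ s - γ' s) := by rw [p2, q2]; exact hev
  have c1 : Conn (s, x) (t, y) (fun r => min (γ r) (γ' r)) :=
    ⟨path_min p1 q1 hev2, by simp only; omega, by simp only; omega⟩
  have c2 : Conn (s, x') (t, y') (fun r => max (γ r) (γ' r)) :=
    ⟨path_max p1 q1 hev2, by simp only; omega, by simp only; omega⟩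
  have t1 := le_T ω (u := (s, x)) (v := (t, y)) hst c1
  have t2 := le_T ω (u := (s, x')) (v := (t, y')) hst c2
  have hs := wt_min_max ω s t γ γ'
  simp only at t1 t2
  refine ⟨⟨c1, ?_⟩, ⟨c2, ?_⟩⟩
  · simp only
    linarith
  · simp only
    linarith

/-- The set of the positions of the geodesics at a time. -/
theorem lam_mem {ω : Env} {o e : Site} (h : Reach o e) {r : ℤ} (h1 : o.1 ≤ r) (h2 : r ≤ e.1) :
    (∃ g, Geod ω o e g ∧ g r = Lam ω o e r) ∧ ∀ γ, Geod ω o e γ → Lam ω o e r ≤ γ r := by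
  have hclip : max o.1 (min r e.1) = r := by omega
  have hne : {y : ℤ | ∃ γ, Geod ω o e γ ∧ γ (max o.1 (min r e.1)) = y}.Nonempty := by
    obtain ⟨γ, c, w, _⟩ := T_attained ω h
    exact ⟨γ (max o.1 (min r e.1)), γ, ⟨c, w.symm⟩, rfl⟩
  have hbd : BddBelow {y : ℤ | ∃ γ, Geod ω o e γ ∧ γ (max o.1 (min r e.1)) = y} := by
    refine ⟨o.2 - (r - o.1), ?_⟩
    rintro y ⟨γ, ⟨c, _⟩, rfl⟩
    rw [hclip]
    have := (path_lip c.1 le_rfl h1 h2).1
    rw [c.2.1, abs_le] at this
    linarith [this.1]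
  constructor
  · have := Int.csInf_mem hne hbd
    obtain ⟨g, hg, hg2⟩ := this
    refine ⟨g, hg, ?_⟩
    rw [hclip] at hg2
    unfold Lam
    rw [hclip]
    exact hg2
  · intro γ hγ
    unfold Lam
    refine csInf_le hbd ⟨γ, hγ, ?_⟩
    rw [hclip]

/-- For each time bound there is a geodesic which is leftmost up to that time. -/
theorem exists_leftmost {ω : Env} {o e : Site} (h : Reach o e) (r : ℤ) (h1 : o.1 ≤ r) :
    r ≤ e.1 → ∃ g, Geod ω o e g ∧ ∀ r', o.1 ≤ r' → r' ≤ r → g r' = Lam ω o e r' := by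
  obtain ⟨s, x⟩ := o
  obtain ⟨t, y⟩ := e
  have hst : s ≤ t := reach_le h
  simp only at h1 ⊢
  induction r, h1 using Int.leInduction with
  | base =>
    intro hr
    obtain ⟨⟨g, hg, hg2⟩, _⟩ := lam_mem (ω := ω) h (r := s) le_rfl hr
    refine ⟨g, hg, ?_⟩
    intro r' a b
    have : r' = s := le_antisymm b a
    rw [this, hg2]
  | succ r hr ih =>
    intro hrt
    obtain ⟨g, hg, hg2⟩ := ih (by omega)
    obtain ⟨⟨g', hg', hg2'⟩, hl⟩ := lam_mem (ω := ω) h (r := r + 1) (by simp only; omega) hrt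
    have hm := (geod_min_max hst hg hg' (by simp) le_rfl le_rfl).1
    refine ⟨_, hm, ?_⟩
    intro r' a b
    rcases lt_or_eq_of_le b with b' | b'
    · have e1 := hg2 r' a (by omega)
      have e2 := (lam_mem (ω := ω) h (r := r') a (by simp only; omega)).2 g' hg'
      rw [e1]
      exact min_eq_left e2
    · subst b'
      have e2 := hl g hg
      rw [hg2']
      exact min_eq_right e2

theorem m_lam : B_LAM := by
  intro ω o e h
  have hst : o.1 ≤ e.1 := reach_le h
  constructor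
  · obtain ⟨g, ⟨c, w⟩, hg2⟩ := exists_leftmost (ω := ω) h e.1 hst le_rfl
    refine ⟨⟨?_, ?_, ?_⟩, ?_⟩
    · intro r a b
      rw [← hg2 r a (by omega), ← hg2 (r + 1) (by omega) (by omega)]
      exact c.1 r a b
    · rw [← hg2 o.1 le_rfl hst]
      exact c.2.1
    · rw [← hg2 e.1 hst le_rfl]
      exact c.2.2
    · rw [← w]
      refine wt_congr fun r a b => ?_
      rw [hg2 r a.le b]
  · intro γ hγ r a b
    exact (lam_mem (ω := ω) h a b).2 γ hγ

theorem m_lamo (h : B_LAM) : B_LAMO := by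
  intro ω s t x x' y y' h1 h2 hev hx hy r a b
  have hst : s ≤ t := reach_le h1
  obtain ⟨g1, _⟩ := h ω _ _ h1
  obtain ⟨g2, _⟩ := h ω _ _ h2
  have hm := (geod_min_max hst g1 g2 hev hx hy).1
  have := (h ω _ _ h1).2 _ hm r a b
  exact this.trans (min_le_right _ _)

end Pool.Agent.H73.LPP.LAM
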