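import Pool.Agent.H22.LPP.TargetsB

/-!
# Two paths of the same parity that exchange their order meet
-/

open MeasureTheory ProbabilityTheory
open Pool.Agent.H99.NS Pool.Agent.H22.LPP

namespace Pool.Agent.H73.LPP.MEET

theorem m_meet : B_MEET := by
  intro s t γ γ' hst h h' hev h0 h1
  by_contra hno
  push Not at hno
  have key : ∀ r, s ≤ r → r ≤ t → Even (γ r - γ' r) ∧ γ r < γ' r := by
    intro r hr
    induction r, hr using Int.leInduction with
    | base =>
      intro _
      exact ⟨hev, lt_of_le_of_ne h0 (hno s le_rfl hst)⟩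
    | succ r hr ih =>
      intro hrt
      obtain ⟨⟨k, hk⟩, hlt⟩ := ih (by omega)
      have hne := hno (r + 1) (by omega) hrt
      rcases h r hr (by omega) with a | a <;> rcases h' r hr (by omega) with b | b
      · exact ⟨⟨k, by omega⟩, by omega⟩
      · exact ⟨⟨k + 1, by omega⟩, by omega⟩
      · exact ⟨⟨k - 1, by omega⟩, by omega⟩
      · exact ⟨⟨k, by omega⟩, by omega⟩
  have := (key t hst le_rfl).2
  omega

end Pool.Agent.H73.LPP.MEET
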